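import Pool.Agent.Lib.ZE46.Blue
import Pool.Agent.Lib.ZK.B_CZB

/-! Row `CZBI` of the project ze: bounds that are uniform in all the data. -/

open scoped Classical Topology ContDiff ComplexOrder Matrix
open Set MeasureTheory Filter

noncomputable section

namespace Pool.Agent.Lib.ZE46

open Pool.Agent.Lib.HS32 Pool.Agent.Lib.ZK

theorem st_CZBI (hKIT : St_KIT) (hPSI : St_PSI) (hUNI : St_UNI) (hUPI : St_UPI) : St_CZBI := by
  intro n M _ H C₀ p C q T BE hn hH hp hq
  obtain ⟨-, hfin, -, -, hint, -⟩ := mMU n M H hH.toMet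
  obtain ⟨C₁, -, hup⟩ := hUPI n M H C₀ p C hH hp
  set K : ℝ := Real.exp (q * (p * T + C₁ + p * BE)) * C with hK
  obtain ⟨S, -, huni⟩ := hUNI n M H ((p + 1) * C₀) ((p + 1) * 1) q K hn hH hq
  set L : ℝ := p * BE + ((M.mu H).real univ + C) with hL
  refine ⟨max (p * T + C₁) ((p + 1) * BE + L + S),
    fun ϑ V E a χ w t ht hD hBE hχ hC hI hS => ?_⟩
  have hE : ∀ x, -BE ≤ E x := fun x => (abs_le.1 (hBE x)).1
  obtain ⟨hclo, -, -, -, hle, henv⟩ := hKIT n M H ϑ hH hD.clo
  obtain ⟨hps, -, -, -, -, hlow, -⟩ := hPSI n M p t E a hp.le hD.env.sm hD.sa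
  have hw : ∀ x, w x ≤ p * T + C₁ := fun x => by
    have h1 := (hup ϑ V t E a χ w hD hχ hC ht.1 hS).1 x
    have h2 := mul_le_mul_of_nonneg_left ht.2 hp.le
    linarith
  have hpl : ∀ x, -(p * BE) ≤ ps M p E a t x := fun x => by
    have h1 := (hlow x).1
    have h2 := mul_le_mul_of_nonneg_left (hE x) hp.le
    linarith
  have cw := hS.sm.continuous
  have cχ := hχ.continuous
  have cp := hps.continuous
  have iq : Integrable (fun x => Real.exp (-(q * χ x))) (M.mu H) :=
    hint ℝ _ (Real.continuous_exp.comp (continuous_const.mul cχ).neg)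
  have hKI : ∫ x, Real.exp (q * (w x - (ps M p E a t x + χ x))) ∂M.mu H ≤ K := by
    calc ∫ x, Real.exp (q * (w x - (ps M p E a t x + χ x))) ∂M.mu H
        ≤ ∫ x, Real.exp (q * (p * T + C₁ + p * BE)) * Real.exp (-(q * χ x)) ∂M.mu H := by
          refine integral_mono (hint ℝ _ (Real.continuous_exp.comp
            (continuous_const.mul (cw.sub (cp.add cχ))))) (iq.const_mul _) fun x => ?_
          have h1 := hw x
          have h2 := hpl x
          have h3 : w x - (ps M p E a t x + χ x) ≤ p * T + C₁ + p * BE - χ x := by linarith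
          have h4 := mul_le_mul_of_nonneg_left h3 (by linarith : (0 : ℝ) ≤ q)
          show Real.exp _ ≤ Real.exp _ * Real.exp _
          rw [← Real.exp_add]
          exact Real.exp_le_exp.2 (by linarith)
      _ ≤ K := by
          rw [integral_const_mul]
          exact mul_le_mul_of_nonneg_left hI (Real.exp_pos _).le
  refine fun x => abs_le.2 ⟨?_, (hw x).trans (le_max_left _ _)⟩
  have hy : ∃ y, -L ≤ w y := by
    by_contra hn
    have hn' : ∀ y, w y ≤ -L := fun y => (not_le.1 fun h => hn ⟨y, h⟩).le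
    have h1 : (1 : ℝ) ≤ Real.exp (-((M.mu H).real univ + C)) * ((M.mu H).real univ + C) := by
      calc (1 : ℝ) = ∫ x, Real.exp (w x - (ps M p E a t x + χ x)) ∂M.mu H := hS.one.symm
        _ ≤ ∫ x, Real.exp (-((M.mu H).real univ + C)) * (1 + Real.exp (-(q * χ x))) ∂M.mu H := by
          refine integral_mono (hint ℝ _ (Real.continuous_exp.comp
            (cw.sub (cp.add cχ)))) (((integrable_const _).add iq).const_mul _) fun x => ?_
          have h1 := hn' x
          have h2 := hpl x
          have h3 : Real.exp (w x - (ps M p E a t x + χ x)) ≤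
              Real.exp (-((M.mu H).real univ + C)) * Real.exp (-χ x) := by
            rw [← Real.exp_add]
            exact Real.exp_le_exp.2 (by linarith)
          exact h3.trans (mul_le_mul_of_nonneg_left (CZB.exp_neg_le hq) (Real.exp_pos _).le)
        _ ≤ _ := by
          rw [integral_const_mul, integral_add (integrable_const _) iq, integral_const, smul_eq_mul,
            mul_one]
          exact mul_le_mul_of_nonneg_left (by linarith) (Real.exp_pos _).le
    have h2 := Real.add_one_le_exp ((M.mu H).real univ + C)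
    have h3 := Real.exp_pos (-((M.mu H).real univ + C))
    have h4 : Real.exp (-((M.mu H).real univ + C)) * Real.exp ((M.mu H).real univ + C) = 1 := by
      rw [← Real.exp_add]
      simp
    nlinarith
  obtain ⟨y, hy⟩ := hy
  have hp1 : (0 : ℝ) < p + 1 := by linarith
  have h1 := huni ((p + 1) • ϑ) V (fun x => (p + 1) * E x) (fun x => ps M p E a t x + χ x) w
    (hclo (p + 1)).2 (hle (p + 1) C₀ hp1.le hD.le) (henv (p + 1) 1 E hp1 hD.env) hS hKI x y
  have h2 := mul_le_mul_of_nonneg_left (hE x) hp1.le
  have h3 := le_max_right (p * T + C₁) ((p + 1) * BE + L + S)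
  linarith

end Pool.Agent.Lib.ZE46
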