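import Pool.Agent.Lib.ZE46.Blue

/-! Row END of the endgame of the project ze: the assembly. -/

open scoped Classical Topology ContDiff ComplexOrder Matrix
open Set MeasureTheory Filter

noncomputable section

namespace Pool.Agent.Lib.ZE46

open Pool.Agent.Lib.HS32 Pool.Agent.Lib.ZK

theorem st_END (hFAM1 : St_FAM1) (hFAM2 : St_FAM2) (hLAYW : St_LAYW) (hREM : St_REM)
    (hLEV : St_LEV) : St_END := by
  intro n M _ H be θ C q ρ hn hH hθ hbe hbe0 hN hq hρ hcv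
  obtain ⟨-, hfin, -, -, hint, -⟩ := mMU n M H hH.toMet
  obtain ⟨a, ha, hmono, hdom⟩ := hFAM1 n M H be θ hn hH hθ hbe hbe0 hN
  obtain ⟨C₀, E, hD, hB, hF⟩ := hFAM2 n M H be θ hn hH hθ hbe hbe0 hN
  obtain ⟨γ, K₀, hγ, hK₀⟩ := hρ.int
  obtain ⟨R, hR⟩ : ∃ R : ℝ, ∀ x, ρ x ≤ R := by
    obtain ⟨R, hR⟩ := isCompact_univ.exists_bound_of_continuousOn hρ.cont.continuousOn
    exact ⟨R, fun x => (le_abs_self _).trans (hR x (mem_univ _))⟩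
  refine ⟨a, ha, hmono, fun m hm => ?_⟩
  obtain ⟨m', hm'⟩ : ∃ m', m' = m * (1 + γ) / γ := ⟨_, rfl⟩
  have hm0 : 0 < m' := by rw [hm']; positivity
  obtain ⟨t, η, ht, hη, lev⟩ := hLEV n M H be θ C q C₀ (m' + 2) ρ hn hH hθ hbe hq (by linarith)
    hρ.cont hρ.nn hcv
  obtain ⟨e, he, δ₁, hδ₁, hF⟩ := hF η hη
  obtain ⟨B₁, hB₁⟩ := hB e he
  obtain ⟨K, hK⟩ := hLAYW M.X (M.mu H) ρ R m' (|C| * (Real.exp (B₁ + (m' + 2)) + 1)) t
    hρ.cont.measurable (fun x => ⟨hρ.nn x, hR x⟩) hm0 (by positivity)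
  refine ⟨1, ⟨one_pos, le_rfl⟩, K₀ + Real.exp (m' * (B₁ + 1)) * K, fun e₃ he₃ => ?_⟩
  obtain ⟨r, hr, hdom⟩ := hdom e₃ he₃
  have he' : min e r ∈ Ioc 0 e := ⟨lt_min he.1 hr, min_le_left _ _⟩
  have he1 : min e r ∈ Ioc (0 : ℝ) 1 := ⟨he'.1, he'.2.trans he.2⟩
  obtain ⟨B₂, hB₂⟩ := hB _ he1
  obtain ⟨N, hN'⟩ := exists_nat_ge (B₁ + B₂)
  choose d hd lev using fun k : ℕ => lev B₁ (max B₁ B₂) e (t + k) he.1 he.2
    (le_add_of_nonneg_right k.cast_nonneg)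
  obtain ⟨δ, hδ0, hδa, hδb, hδc⟩ : ∃ δ : ℝ, 0 < δ ∧ δ ≤ δ₁ ∧ δ ≤ r ∧ ∀ k ≤ N, δ ≤ d k := by
    obtain ⟨k₀, -, hk₀⟩ := (Finset.range (N + 1)).exists_min_image d ⟨0, by simp⟩
    exact ⟨min (min δ₁ r) (d k₀), lt_min (lt_min hδ₁.1 hr) (hd _),
      (min_le_left _ _).trans (min_le_left _ _), (min_le_left _ _).trans (min_le_right _ _),
      fun k hk => (min_le_right _ _).trans (hk₀ k (by simpa using Nat.lt_succ_of_le hk))⟩
  have hδ : δ ∈ Ioc (0 : ℝ) 1 := ⟨hδ0, hδa.trans hδ₁.2⟩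
  have D := hD e he _ he' δ hδ
  have cE := D.env.sm.continuous
  have cE' := D.sa.continuous
  have key := hK (fun x => E e δ x - E (min e r) δ x) N (cE.sub cE').measurable
    (fun x => (abs_sub _ _).trans ((add_le_add (hB₁ δ hδ x) (hB₂ δ hδ x)).trans hN'))
    (fun k hk => by
      have h := lev k δ ⟨hδ0, hδc k hk⟩ _ _ D (fun x => (abs_le.1 (hB₁ δ hδ x)).1)
        (fun x => (hB₁ δ hδ x).trans (le_max_left _ _))
        (fun x => (hB₂ δ hδ x).trans (le_max_right _ _)) (hF _ he' δ ⟨hδ0, hδa⟩)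
      rwa [show m' + 2 - 1 = m' + 1 by ring] at h) ht.le
  have hle := hdom _ ⟨he'.1, min_le_right _ _⟩ δ ⟨hδ0, hδb⟩ _
    (hD _ he1 _ ⟨he1.1, le_rfl⟩ δ hδ).env
  have hs := (ha e₃ he₃).sm
  have ca := hs.continuous
  have cρ := hρ.cont
  obtain ⟨R', -, hR'⟩ := hs.exists_bound
  refine hREM M.X (M.mu H) ρ (a e₃) (max R R') γ m K₀ _ cρ.measurable ca.measurable
    (fun x => ⟨hρ.nn x, (hR x).trans (le_max_left _ _)⟩)
    (fun x => (hR' x).trans (le_max_right _ _)) hγ hm hK₀ ?_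
  rw [← hm']
  refine le_trans ?_ (mul_le_mul_of_nonneg_left key (Real.exp_pos _).le)
  rw [← integral_const_mul]
  refine integral_mono (hint ℝ _ (by fun_prop)) (hint ℝ _ (by fun_prop)) fun x => ?_
  beta_reduce
  rw [mul_left_comm, ← Real.exp_add]
  refine mul_le_mul_of_nonneg_left (Real.exp_le_exp.2 ?_) (hρ.nn x)
  nlinarith [hle x, (abs_le.1 (hB₁ δ hδ x)).1]

end Pool.Agent.Lib.ZE46
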