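import Pool.Agent.Lib.ZE46.Blue
import Pool.Agent.Lib.ZK.B_ENV

/-! Project ze: the family of envelopes with one parameter. -/

open scoped Classical Topology ContDiff ComplexOrder Matrix
open Set

noncomputable section

namespace Pool.Agent.Lib.ZE46

open Pool.Agent.Lib.HS32 Pool.Agent.Lib.ZK

namespace FAM1

variable {n : ℕ} {M : Mf n} {α β : M.Fam (Mat n)} {φ a : M.X → ℝ} {b c : ℝ}

/-- Envelopes increase with the form. -/
theorem dom (hα : M.Clo α) (h : M.Le β α) (hφ : Env M β φ c) (ha : Env M α a b) (x : M.X) :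
    φ x ≤ a x + b :=
  ha.mx φ hφ.sm (hφ.kae.toMet.of_le (hα.add ((mHES n M).1 φ hφ.sm)).toForm
    (h.add (Mf.Le.refl _))) hφ.np x

end FAM1

open FAM1 in
theorem st_FAM1 : St_FAM1 := by
  intro n M _ H be θ hn hH hθ hbe _ hN
  obtain ⟨C, hC, hb, -⟩ := (mBD n M H hH.toMet).1 be hbe.toForm
  have cl : ∀ e : ℝ, M.Clo (θ + e • H) := fun e => hθ.add (hH.toClo.smul e)
  have key : ∀ e e' δ : ℝ, 0 ≤ e' → e' * C + δ ≤ e →
      M.Le (θ + e' • be + δ • H) (θ + e • H) := fun e e' δ h h' => by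
    have h1 := (hb.smul h).add (Mf.Le.refl (δ • H))
    rw [smul_smul, ← add_smul] at h1
    rw [add_assoc]
    exact (Mf.Le.refl θ).add (h1.trans (hH.toMet.le_smul h'))
  have ex : ∀ e : ℝ, ∃ φ, 0 < e → Env M (θ + e • H) φ e := fun e => by
    by_cases he : 0 < e
    · obtain ⟨ψ, h1, h2⟩ := hN (e / 2 / C) (by positivity)
      have c := (cl e).add ((mHES n M).1 ψ h1)
      have h3 := h2.add (Mf.Le.refl ((e / 2) • H))
      rw [zero_add, add_right_comm] at h3
      have h4 := key e (e / 2 / C) (e / 2) (by positivity)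
        (by rw [div_mul_cancel₀ _ hC.ne']; linarith)
      have m := (hH.toMet.smul (half_pos he)).of_le c.toForm (h3.trans (h4.add (Mf.Le.refl _)))
      exact (st_ENV n M H _ ψ e hn hH (cl e) h1 ⟨c, m.pos⟩ he).imp fun _ h _ => h
    · exact ⟨0, fun h => absurd h he⟩
  choose a ha using ex
  refine ⟨a, fun e he => ha e he.1, fun e he e' he' => dom (cl e)
    ((Mf.Le.refl θ).add (hH.toMet.le_smul he'.2)) (ha e' he'.1) (ha e he.1), fun e he =>
    ⟨e / (C + 1), div_pos he.1 (by linarith), fun e' he' δ hδ φ hφ x => ?_⟩⟩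
  have h1 : e / (C + 1) * C + e / (C + 1) = e := by field_simp
  have h2 := dom (cl e) (key e e' δ he'.1.le (by
    linarith [mul_le_mul_of_nonneg_right he'.2 hC.le, hδ.2])) hφ (ha e he.1) x
  linarith [he.2]

end Pool.Agent.Lib.ZE46
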