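import Pool.Agent.Lib.ZE46.Blue
import Pool.Agent.Lib.ZK.B_ENV
import Pool.Agent.Lib.ZK48.Uni

/-! Project ze, row FAM2: the family of envelopes with two parameters. -/

open scoped Classical Topology ContDiff ComplexOrder Matrix
open Set MeasureTheory Filter

noncomputable section

namespace Pool.Agent.Lib.ZE46

open Pool.Agent.Lib.HS32 Pool.Agent.Lib.ZK Pool.Agent.Lib.DM.K63

namespace FAM2

variable {n : ℕ} {M : Mf n} {H be θ : M.Fam (Mat n)} {e e' δ δ' : ℝ} {a : M.X → ℝ}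

theorem clo (hH : M.Kae H) (hθ : M.Clo θ) (hb : M.Clo be) (e δ : ℝ) : M.Clo (θ + e • be + δ • H) :=
  (hθ.add (hb.smul e)).add (hH.toClo.smul δ)

theorem mono (hH : M.Kae H) (hθ : M.Clo θ) (hb : M.Clo be) (b0 : M.Le 0 be) (ha : M.Sm a)
    (h1 : e' ≤ e) (h2 : δ' ≤ δ) (h : M.Met (θ + e' • be + δ' • H + M.hs a)) :
    M.Met (θ + e • be + δ • H + M.hs a) :=
  h.of_le ((clo hH hθ hb e δ).add ((mHES n M).1 a ha)).toForm fun c hc z hz => by
    refine (congrArg Matrix.PosSemidef ?_).mpr ((Mf.psd_rsmul (b0 c hc z hz) (sub_nonneg.2 h1)).add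
      (Mf.psd_rsmul (hH.pos c hc z hz).posSemidef (sub_nonneg.2 h2)))
    simp only [Pi.add_apply, Pi.smul_apply, Pi.zero_apply]
    module

theorem kae (hH : M.Kae H) (hθ : M.Clo θ) (hb : M.Clo be) (ha : M.Sm a) (h0 : 0 < δ)
    (h : M.Le 0 (θ + e • be + M.hs a)) : M.Kae (θ + e • be + δ • H + M.hs a) :=
  ⟨(clo hH hθ hb e δ).add ((mHES n M).1 a ha), fun c hc z hz => by
    refine (congrArg Matrix.PosDef ?_).mpr
      ((Mf.pd_rsmul (hH.pos c hc z hz) h0).add_posSemidef (h c hc z hz))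
    simp only [Pi.add_apply, Pi.smul_apply, Pi.zero_apply]
    abel⟩

theorem shift {α : M.Fam (Mat n)} (ha : M.Sm a) (h : M.Met (α + M.hs a)) (c : ℝ) :
    M.Met (α + M.hs fun x => a x + c) := h.congr fun e he z hz => by
  simp only [Pi.add_apply]; rw [hs_add_const ha _ e he z hz]

end FAM2

open FAM2 in
theorem st_FAM2 : St_FAM2 := by
  intro n M _ H be θ hn hH hθ hb b0 hN
  choose! ψ ψ1 ψ2 using hN
  have ex : ∀ e δ : ℝ, 0 < e → 0 < δ → ∃ φ, Env M (θ + e • be + δ • H) φ e := fun e δ he hδ =>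
    st_ENV n M H _ _ e hn hH (clo hH hθ hb e δ) (ψ1 e he) (kae hH hθ hb (ψ1 e he) hδ (ψ2 e he)) he
  choose! E hE using ex
  obtain ⟨C₁, -, h1, -⟩ := (mBD n M H hH.toMet).1 θ hθ.toForm
  obtain ⟨C₂, C0, h2, -⟩ := (mBD n M H hH.toMet).1 be hb.toForm
  have hC : ∀ e ≤ (1 : ℝ), ∀ δ ≤ (1 : ℝ), M.Le (θ + e • be + δ • H) ((C₁ + C₂ + 1) • H) :=
    fun e he δ hδ c hc z hz => by
      refine (congrArg Matrix.PosSemidef ?_).mpr ((((h1 c hc z hz).add (h2 c hc z hz)).add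
        (Mf.psd_rsmul (b0 c hc z hz) (sub_nonneg.2 he))).add
        (Mf.psd_rsmul (hH.pos c hc z hz).posSemidef (sub_nonneg.2 hδ)))
      simp only [Pi.add_apply, Pi.smul_apply, Pi.zero_apply]
      module
  have hm : ∀ e e' δ δ' : ℝ, 0 < e' → e' ≤ e → 0 < δ' → δ' ≤ δ → ∀ x, E e' δ' x ≤ E e δ x + e :=
    fun e e' δ δ' a b c d => (hE e δ (a.trans_le b) (c.trans_le d)).mx _ (hE e' δ' a c).sm
      (mono hH hθ hb b0 (hE e' δ' a c).sm b d (hE e' δ' a c).kae.toMet) (hE e' δ' a c).np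
  refine ⟨C₁ + C₂ + 1, E, fun e he e' he' δ hδ => ?_, fun e he => ?_, fun η hη => ?_⟩
  · have p := hE e δ he.1 hδ.1
    have p' := hE e' δ he'.1 hδ.1
    exact ⟨hn, hH, clo hH hθ hb e δ, hC e he.2 δ hδ.2, ⟨p.sm, p.kae, p.np, fun f a b c x =>
      (p.mx f a b c x).trans (add_le_add le_rfl he.2)⟩, p'.sm,
      (mono hH hθ hb b0 p'.sm he'.2 le_rfl p'.kae.toMet).nonneg, p'.np⟩
  · obtain ⟨B, B0, hB⟩ := (ψ1 e he.1).exists_bound
    refine ⟨2 * B + 1, fun δ hδ x => ?_⟩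
    have p := hE e δ he.1 hδ.1
    have k := p.mx _ ((ψ1 e he.1).add (Mf.sm_const (-B))) (shift (ψ1 e he.1)
      (kae hH hθ hb (ψ1 e he.1) hδ.1 (ψ2 e he.1)).toMet _)
      (fun y => by linarith [(abs_le.1 (hB y)).2]) x
    exact abs_le.2 ⟨by linarith [(abs_le.1 (hB x)).1, he.2], by linarith [p.np x]⟩
  obtain ⟨P, hP⟩ := sup_le hH.toMet (C₁ + C₂ + 1)
  obtain ⟨-, fin, -, v0, -⟩ := mMU n M H hH.toMet
  set V := (M.mu H).real univ with hV
  set r := min 1 (η / (2 * V)) with hr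
  have r0 : 0 < r := by positivity
  have r1 : r ≤ 1 := min_le_left _ _
  have r2 : r * (2 * V) ≤ η := (le_div_iff₀ (by positivity)).1 (min_le_right _ _)
  have bd : BddBelow ((fun s : ℝ × ℝ => ∫ x, E s.1 s.2 x ∂M.mu H) '' Ioc 0 r ×ˢ Ioc 0 r) := by
    refine ⟨-V - P, ?_⟩
    rintro _ ⟨s, ⟨hs, hs'⟩, rfl⟩
    have h := hE _ _ hs.1 hs'.1
    obtain ⟨y, hy⟩ := h.sm.exists_max
    have k := h.mx _ (h.sm.add (Mf.sm_const (-E s.1 s.2 y))) (shift h.sm h.kae.toMet _)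
      (fun x => by linarith [hy x]) y
    have k2 := hP _ h.sm (ZK48.le_psh (hC _ (hs.2.trans r1) _ (hs'.2.trans r1))
      h.kae.toMet.nonneg) y
    have k3 := mul_le_mul_of_nonneg_right (show -1 ≤ E s.1 s.2 y by linarith [hs.2]) v0.le
    simp only
    linarith
  obtain ⟨_, ⟨⟨e, d⟩, ⟨he, hd⟩, rfl⟩, h3⟩ := exists_lt_of_csInf_lt
    (((nonempty_Ioc.2 r0).prod (nonempty_Ioc.2 r0)).image
      fun s : ℝ × ℝ => ∫ x, E s.1 s.2 x ∂M.mu H) (lt_add_of_pos_right _ (half_pos hη))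
  simp only at he hd h3
  refine ⟨e, ⟨he.1, he.2.trans r1⟩, d, ⟨hd.1, hd.2.trans r1⟩, fun e' he' δ hδ => ?_⟩
  have h4 := csInf_le bd (mem_image_of_mem _ (show (e', δ) ∈ Ioc 0 r ×ˢ Ioc 0 r from
    ⟨⟨he'.1, he'.2.trans he.2⟩, hδ.1, hδ.2.trans hd.2⟩))
  have i1 := int hH.toMet (hE e d he.1 hd.1).sm.continuous
  have i2 := int hH.toMet (hE e' δ he'.1 hδ.1).sm.continuous
  have h5 := mul_meas_ge_le_integral_of_nonneg (μ := M.mu H)
    (f := fun x => E e d x - E e' δ x + e) (ae_of_all _ fun x => by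
      simp only [Pi.zero_apply]; linarith [hm e e' d δ he'.1 he'.2 hδ.1 hδ.2 x])
    ((i1.sub i2).add (integrable_const _)) 1
  rw [one_mul, integral_add (f := fun x => E e d x - E e' δ x) (i1.sub i2) (integrable_const _),
    integral_sub i1 i2, integral_const, smul_eq_mul, ← hV] at h5
  refine (measureReal_mono fun x (hx : 1 < E e δ x - E e' δ x) => ?_).trans (h5.trans ?_)
  · show 1 ≤ E e d x - E e' δ x + e
    linarith [hm e e d δ he.1 le_rfl hδ.1 hδ.2 x]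
  · simp only at h4
    nlinarith [mul_le_mul_of_nonneg_left he.2 v0.le]

end Pool.Agent.Lib.ZE46
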