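import Pool.Agent.Lib.ZE46.Blue

/-! Row LAYW: from finitely many levels to the weighted exponential integral. -/

open Set MeasureTheory

noncomputable section

namespace Pool.Agent.Lib.ZE46

theorem st_LAYW : St_LAYW := by
  intro X _ μ _ ρ R m A t hρ hR hm hA
  refine ⟨R * Real.exp (m * t) * μ.real univ + A * Real.exp (m - t) * (1 - Real.exp (-1))⁻¹,
    fun y N hy hB hT ht => ?_⟩
  have hS : ∀ k : ℕ, MeasurableSet {x | t + k ≤ y x} := fun k => measurableSet_le measurable_const hy
  have hρI : Integrable ρ μ := (integrable_const R).mono' hρ.aestronglyMeasurable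
    (ae_of_all _ fun x => by rw [Real.norm_of_nonneg (hR x).1]; exact (hR x).2)
  have hI : ∀ k : ℕ, Integrable
      ({x | t + k ≤ y x}.indicator fun x => ρ x * Real.exp (m * (t + k + 1))) μ := fun k =>
    (hρI.mul_const _).indicator (hS k)
  have hpt : ∀ x, ρ x * Real.exp (m * y x) ≤ R * Real.exp (m * t) + ∑ k ∈ Finset.range (N + 1),
      {x | t + k ≤ y x}.indicator (fun x => ρ x * Real.exp (m * (t + k + 1))) x := fun x => by
    have h0 : ∀ k ∈ Finset.range (N + 1),
        0 ≤ {x | t + k ≤ y x}.indicator (fun x => ρ x * Real.exp (m * (t + k + 1))) x := fun k _ =>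
      indicator_nonneg (fun x _ => mul_nonneg (hR x).1 (Real.exp_pos _).le) x
    have hR0 : 0 ≤ R := (hR x).1.trans (hR x).2
    rcases le_total (y x) t with h | h
    · exact le_add_of_le_of_nonneg (mul_le_mul (hR x).2
        (Real.exp_le_exp.2 (mul_le_mul_of_nonneg_left h hm.le)) (Real.exp_pos _).le hR0)
        (Finset.sum_nonneg h0)
    · have h1 := Nat.floor_le (sub_nonneg.2 h)
      have h2 := Nat.lt_floor_add_one (y x - t)
      have h3 : ⌊y x - t⌋₊ ∈ Finset.range (N + 1) := Finset.mem_range.2 (Nat.lt_succ_of_le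
        (Nat.floor_le_of_le ((sub_le_self _ ht).trans ((le_abs_self _).trans (hB x)))))
      refine le_add_of_nonneg_of_le (mul_nonneg hR0 (Real.exp_pos _).le)
        (le_trans ?_ (Finset.single_le_sum h0 h3))
      rw [indicator_of_mem (show x ∈ {x' | t + (⌊y x - t⌋₊ : ℝ) ≤ y x'} from by
        change t + _ ≤ y x
        linarith)]
      exact mul_le_mul_of_nonneg_left
        (Real.exp_le_exp.2 (mul_le_mul_of_nonneg_left (by linarith) hm.le)) (hR x).1
  have hsum := integrable_finsetSum (Finset.range (N + 1)) fun k _ => hI k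
  refine (integral_mono_of_nonneg (ae_of_all _ fun x => mul_nonneg (hR x).1 (Real.exp_pos _).le)
    ((integrable_const _).add hsum) (ae_of_all _ hpt)).trans ?_
  rw [integral_add' (integrable_const _) hsum, integral_const, smul_eq_mul, mul_comm,
    integral_finsetSum _ fun k _ => hI k]
  refine add_le_add le_rfl ?_
  have e1 : Real.exp (-1) < 1 := Real.exp_lt_one_iff.2 (by norm_num)
  have e2 := (summable_geometric_of_lt_one (Real.exp_pos _).le e1).sum_le_tsum
    (Finset.range (N + 1)) fun k _ => pow_nonneg (Real.exp_pos _).le k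
  rw [tsum_geometric_of_lt_one (Real.exp_pos _).le e1] at e2
  refine le_trans ?_ (mul_le_mul_of_nonneg_left e2 (by positivity))
  rw [Finset.mul_sum]
  refine Finset.sum_le_sum fun k hk => ?_
  rw [integral_indicator (hS k), integral_mul_const]
  have e3 := hT k (Nat.le_of_lt_succ (Finset.mem_range.1 hk))
  refine (mul_le_mul_of_nonneg_right e3 (Real.exp_pos _).le).trans (le_of_eq ?_)
  rw [mul_assoc, mul_assoc, ← Real.exp_nat_mul, ← Real.exp_add, ← Real.exp_add]
  exact congrArg _ (congrArg _ (by ring))

end Pool.Agent.Lib.ZE46
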