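import Pool.Agent.Lib.ZE46.Blue

/-! Row LEV of the endgame of the project ze: the tail at one level. -/

open scoped Classical Topology ContDiff ComplexOrder Matrix
open Set MeasureTheory Filter

noncomputable section

namespace Pool.Agent.Lib.ZE46

open Pool.Agent.Lib.HS32 Pool.Agent.Lib.ZK

theorem st_LEV (hKIT : St_KIT) (hPSI : St_PSI) (hEXS : St_EXS) (hUPI : St_UPI) (hLOWI : St_LOWI)
    (hTAILI : St_TAILI) : St_LEV := by
  intro n M _ H be θ C q C₀ p ρ hn hH hθ hbe hq hp1 hρ hρ0 hcv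
  have hp : 0 < p := by linarith
  obtain ⟨-, hfin, -, -, hint, -⟩ := mMU n M H hH.toMet
  obtain ⟨A, hA, cv⟩ := hcv p hp
  obtain ⟨C₁, hC₁, u⟩ := hUPI n M H C₀ p C hH hp
  obtain ⟨C₄, hC₄, lo⟩ := hLOWI n M H C₀ p C q hn hH hp hq
  obtain ⟨t, ht⟩ : ∃ t, t = C₄ + A + (C₁ + (p + 1)) := ⟨_, rfl⟩
  have ht0 : 0 < t := by linarith
  obtain ⟨η, hη, lo⟩ := lo t ht0.le
  refine ⟨t, η, ht0, hη, fun B₁ B e T he he1 hT => ?_⟩
  have hT0 : 0 < T := by linarith
  obtain ⟨δ₀, hδ₀, cv⟩ := cv C₀ B e t T (Real.exp (-((p - 1) * T))) he he1 ht0 hT (Real.exp_pos _)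
  refine ⟨δ₀, hδ₀, fun δ hδ E a hD hB₁ hE ha hsm => ?_⟩
  obtain ⟨χ, hχ, cv⟩ := cv δ hδ E a hD hE ha
  obtain ⟨j1, -, -, -, -, j6⟩ := hKIT n M H _ hH hD.clo
  have hS := j6 (p + 1) 1 _ (by linarith) hD.env
  obtain ⟨V, hV⟩ := hEXS n M H _ _ hn hH (j1 (p + 1)).2 hS.sm hS.kae
  choose w hw using fun s => hV _ ((hPSI n M p s _ _ hp.le hD.env.sm hD.sa).1.add hχ.sm)
  have c0 := (hw 0).sm.continuous
  have c1 := (hw t).sm.continuous
  have c2 := (hw T).sm.continuous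
  have h1 := hTAILI n M H _ p V B₁ T _ E a χ (w T) _ hp hH.toMet hD.env.sm hD.sa hχ.sm hB₁ (hw T)
    (isOpen_lt (by fun_prop) c1) (fun x hx => by
      obtain ⟨u1, u2⟩ := u _ V 0 _ _ χ (w 0) hD hχ.sm hχ.mean le_rfl (hw 0)
      have u3 := (u2 _ u1 x).1
      have l1 := lo _ V _ _ χ (w t) hD hχ.sm hχ.mean hχ.lq hsm (hw t) x
      have hx' : w t x ≤ (1 - t / T) * w 0 x + t / T * w T x + A := not_lt.1 hx
      have r0 : 0 < t / T := div_pos ht0 hT0
      have r1 : t / T ≤ 1 := (div_le_one hT0).2 hT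
      have r2 : t / T * T = t := div_mul_cancel₀ _ hT0.ne'
      have h2 : (1 - t / T) * (w 0 x - (p + 1) * E x) ≤ C₁ + (p + 1) := by
        have : (1 - t / T) * (w 0 x - (p + 1) * E x) ≤ (1 - t / T) * (C₁ + (p + 1)) :=
          mul_le_mul_of_nonneg_left (by linarith) (by linarith)
        nlinarith [mul_nonneg r0.le (by linarith : 0 ≤ C₁ + (p + 1))]
      have h3 : t / T * ((p - 1) * T) ≤ t / T * (w T x - (p + 1) * E x) := by
        have : t / T * ((p - 1) * T) = (p - 1) * t := by rw [mul_left_comm, r2]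
        rw [this]
        nlinarith
      exact le_of_mul_le_mul_left h3 r0) (cv V w hw)
  have cχ := hχ.sm.continuous
  have cE := hD.env.sm.continuous
  have ca := hD.sa.continuous
  calc ∫ x in {x | T ≤ E x - a x}, ρ x ∂M.mu H
      ≤ ∫ x in {x | T ≤ E x - a x}, |C| * Real.exp (-χ x) ∂M.mu H :=
        integral_mono (hint ℝ _ hρ).integrableOn (hint ℝ _ (by fun_prop)).integrableOn fun x =>
          (hχ.low x).trans (mul_le_mul_of_nonneg_right (le_abs_self _) (Real.exp_pos _).le)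
    _ = |C| * ∫ x in {x | T ≤ E x - a x}, Real.exp (-χ x) ∂M.mu H := integral_const_mul _ _
    _ ≤ |C| * (Real.exp (B₁ + p) * Real.exp (-((p - 1) * T)) + Real.exp (-((p - 1) * T))) :=
        mul_le_mul_of_nonneg_left h1 (abs_nonneg _)
    _ = _ := by ring

end Pool.Agent.Lib.ZE46
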