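import Pool.Agent.Lib.ZE46.Blue

/-! Row `LOWI` of the endgame of the project ze: the lower bound at one time. -/

open scoped Classical Topology ContDiff ComplexOrder Matrix
open Set MeasureTheory Filter

noncomputable section

namespace Pool.Agent.Lib.ZE46

open Pool.Agent.Lib.HS32 Pool.Agent.Lib.ZK

namespace LOWI

theorem exp_le_one_add {r u : ℝ} (hr : 1 ≤ r) : Real.exp u ≤ 1 + Real.exp (r * u) := by
  have h1 := Real.exp_pos (r * u)
  rcases le_total u 0 with h | h
  · have : Real.exp u ≤ 1 := Real.exp_le_one_iff.2 h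
    linarith
  · have : Real.exp u ≤ Real.exp (r * u) := Real.exp_le_exp.2 (by nlinarith)
    linarith

theorem neg_le_of {s L : ℝ} (h : 1 ≤ Real.exp s * L) : -L ≤ s := by
  by_contra hn
  have h1 : Real.exp s ≤ Real.exp (-L) := Real.exp_le_exp.2 (not_le.1 hn).le
  have h2 := Real.add_one_le_exp L
  have h3 := Real.exp_pos s
  have h4 : Real.exp (-L) * Real.exp L = 1 := by
    rw [← Real.exp_add]
    simp
  have h5 := Real.exp_pos L
  nlinarith

end LOWI

open LOWI in
theorem st_LOWI (hUPI : St_UPI) (hKIT : St_KIT) (hPSI : St_PSI) (hMES : St_MES) (hUNI : St_UNI) :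
    St_LOWI := by
  intro n M _ H C₀ p C q hn hH hp hq
  obtain ⟨-, hfin, -, hvol, hint, -⟩ := mMU n M H hH.toMet
  obtain ⟨C₁, -, hup⟩ := hUPI n M H C₀ p C hH hp
  have hr1 : 1 < (1 + q) / 2 := by linarith
  obtain ⟨K, hK0, hmes⟩ := hMES M.X (M.mu H) p q ((1 + q) / 2) C hp hr1.le (by linarith)
  set r : ℝ := (1 + q) / 2 with hr
  obtain ⟨S, hS0, huni⟩ := hUNI n M H ((p + 1) * C₀) ((p + 1) * 1) r
    (Real.exp (r * (C₁ + (p + 1))) * K) hn hH hr1
  refine ⟨p + 1 + ((M.mu H).real univ + K) + S, by linarith, fun t ht => ?_⟩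
  obtain ⟨η, hη, hm⟩ := hmes t
  refine ⟨η, hη, fun ϑ V E a χ w hD hχ hC hI hμ hS x => ?_⟩
  obtain ⟨hclo, -, -, -, hle, henv⟩ := hKIT n M H ϑ hD.kae hD.clo
  obtain ⟨hps, -⟩ := hPSI n M p t E a hp.le hD.env.sm hD.sa
  obtain ⟨x₀, hx₀⟩ := hS.sm.exists_max
  obtain ⟨h1, h2⟩ := hup ϑ V t E a χ w hD hχ hC ht hS
  obtain ⟨Bχ, -, hBχ⟩ := hχ.exists_bound
  have cw := hS.sm.continuous
  have cχ := hχ.continuous
  have cp := hps.continuous
  have cy : Continuous fun x => E x - a x := hD.env.sm.continuous.sub hD.sa.continuous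
  have cu : Continuous fun x => p * min (E x - a x) t - χ x :=
    (continuous_const.mul (cy.min continuous_const)).sub cχ
  have hK := hm (fun x => E x - a x) χ Bχ cy.measurable cχ.measurable hBχ hI hμ
  have ir : Integrable (fun x => Real.exp (r * (p * min (E x - a x) t - χ x))) (M.mu H) :=
    hint ℝ _ (Real.continuous_exp.comp (continuous_const.mul cu))
  have hb : ∀ y, w y - (ps M p E a t y + χ y) ≤
      (w x₀ + (p + 1) - p * t) + (p * min (E y - a y) t - χ y) := fun y => by
    have := (h2 (w x₀) hx₀ y).2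
    linarith
  have hKI : ∫ y, Real.exp (r * (w y - (ps M p E a t y + χ y))) ∂M.mu H ≤
      Real.exp (r * (C₁ + (p + 1))) * K := by
    calc ∫ y, Real.exp (r * (w y - (ps M p E a t y + χ y))) ∂M.mu H
        ≤ ∫ y, Real.exp (r * (C₁ + (p + 1))) *
            Real.exp (r * (p * min (E y - a y) t - χ y)) ∂M.mu H := by
          refine integral_mono (hint ℝ _ (Real.continuous_exp.comp
            (continuous_const.mul (cw.sub (cp.add cχ))))) (ir.const_mul _) fun y => ?_
          have h3 : w y - (ps M p E a t y + χ y) ≤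
              (C₁ + (p + 1)) + (p * min (E y - a y) t - χ y) := by
            have := hb y
            have := h1 x₀
            linarith
          have h4 := mul_le_mul_of_nonneg_left h3 (by linarith : (0 : ℝ) ≤ r)
          show Real.exp _ ≤ Real.exp _ * Real.exp _
          rw [← Real.exp_add]
          exact Real.exp_le_exp.2 (by linarith)
      _ ≤ _ := by
          rw [integral_const_mul]
          exact mul_le_mul_of_nonneg_left hK (Real.exp_pos _).le
  have hlow : -((M.mu H).real univ + K) ≤ w x₀ + (p + 1) - p * t := by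
    refine neg_le_of ?_
    calc (1 : ℝ) = ∫ y, Real.exp (w y - (ps M p E a t y + χ y)) ∂M.mu H := hS.one.symm
      _ ≤ ∫ y, Real.exp (w x₀ + (p + 1) - p * t) *
            (1 + Real.exp (r * (p * min (E y - a y) t - χ y))) ∂M.mu H := by
          refine integral_mono (hint ℝ _ (Real.continuous_exp.comp
            (cw.sub (cp.add cχ)))) (((integrable_const _).add ir).const_mul _) fun y => ?_
          have h3 : Real.exp (w y - (ps M p E a t y + χ y)) ≤
              Real.exp (w x₀ + (p + 1) - p * t) * Real.exp (p * min (E y - a y) t - χ y) := by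
            rw [← Real.exp_add]
            exact Real.exp_le_exp.2 (hb y)
          exact h3.trans (mul_le_mul_of_nonneg_left (exp_le_one_add hr1.le) (Real.exp_pos _).le)
      _ ≤ _ := by
          rw [integral_const_mul, integral_add (integrable_const _) ir, integral_const,
            smul_eq_mul, mul_one]
          exact mul_le_mul_of_nonneg_left (by linarith) (Real.exp_pos _).le
  have hp1 : (0 : ℝ) < p + 1 := by linarith
  have h5 := huni ((p + 1) • ϑ) V (fun x => (p + 1) * E x) (fun x => ps M p E a t x + χ x) w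
    (hclo (p + 1)).2 (hle (p + 1) C₀ hp1.le hD.le) (henv (p + 1) 1 E hp1 hD.env) hS hKI x x₀
  linarith

end Pool.Agent.Lib.ZE46
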