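import Pool.Agent.Lib.ZE46.Blue

/-! Removing the density. -/

open Set MeasureTheory

namespace Pool.Agent.Lib.ZE46

theorem REM.pt {r γ m a : ℝ} (hr : 0 < r) (hγ : 0 < γ) : Real.exp (-(m * a)) ≤
    Real.exp (-(γ * Real.log r)) + r * Real.exp (-(m * (1 + γ) / γ * a)) := by
  rcases le_total (γ * Real.log r) (m * a) with h | h
  · exact (Real.exp_le_exp.2 (neg_le_neg h)).trans (le_add_of_nonneg_right (by positivity))
  · refine le_trans ?_ (le_add_of_nonneg_left (Real.exp_pos _).le)
    have : m * a / γ ≤ Real.log r := by rw [div_le_iff₀ hγ]; linarith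
    rw [← Real.exp_log hr, ← Real.exp_add, Real.exp_le_exp,
      show m * (1 + γ) / γ * a = m * a / γ + m * a by field_simp]
    linarith

theorem st_REM : St_REM := by
  intro X _ μ _ ρ a R γ m K K' hρ ha h0 h1 hγ hm hK hK'
  have iE : ∀ c : ℝ, Integrable (fun x => Real.exp (-(c * a x))) μ := fun c =>
    .of_bound (by fun_prop) (Real.exp (|c| * R)) (.of_forall fun x => by
      rw [Real.norm_of_nonneg (Real.exp_pos _).le, Real.exp_le_exp]
      exact (neg_le_abs _).trans (by rw [abs_mul]; gcongr; exact h1 x))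
  have iρ : Integrable (fun x => ρ x * Real.exp (-(m * (1 + γ) / γ * a x))) μ :=
    (iE _).bdd_mul (c := R) hρ.aestronglyMeasurable (.of_forall fun x => by
      rw [Real.norm_of_nonneg (h0 x).1]; exact (h0 x).2)
  set J := ∫ x, Real.exp (-(m * (1 + γ) / γ * a x)) ∂μ with hJ
  have J0 : 0 ≤ J := integral_nonneg fun x => (Real.exp_pos _).le
  refine le_of_forall_pos_le_add fun ε hε => ?_
  have d0 : 0 < min 1 (ε / (J + 1)) := by positivity
  have d1 : min 1 (ε / (J + 1)) * (J + 1) ≤ ε := (le_div_iff₀ (by positivity)).1 (min_le_right _ _)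
  have d2 := hK _ ⟨d0, min_le_left _ _⟩
  generalize min 1 (ε / (J + 1)) = d at d0 d1 d2
  have iL : Integrable (fun x => Real.exp (-(γ * Real.log (ρ x + d)))) μ :=
    .of_bound (Measurable.aestronglyMeasurable (by fun_prop)) (Real.exp (-(γ * Real.log d)))
      (.of_forall fun x => by
      rw [Real.norm_of_nonneg (Real.exp_pos _).le]
      gcongr
      linarith [(h0 x).1])
  have e := integral_mono (iE m) (iL.add (iρ.add ((iE (m * (1 + γ) / γ)).const_mul d))) fun x => by
    simpa only [Pi.add_apply, add_mul] using REM.pt (m := m) (a := a x)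
      (show 0 < ρ x + d by linarith [(h0 x).1]) hγ
  rw [integral_add' iL (iρ.add ((iE _).const_mul d)), integral_add' iρ ((iE _).const_mul d),
    integral_const_mul] at e
  linarith

end Pool.Agent.Lib.ZE46
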