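import Pool.Agent.Lib.ZE46.Blue
import Pool.Agent.Lib.ZK.B_PSI

/-! The tail, off a small set. -/

open scoped Classical Topology ContDiff ComplexOrder Matrix
open Set MeasureTheory Filter

noncomputable section

namespace Pool.Agent.Lib.ZE46

open Pool.Agent.Lib.HS32 Pool.Agent.Lib.ZK

theorem st_TAILI : St_TAILI := by
  intro n M _ H α p V B T η E a χ w S hp hH hE ha hχ hB hs hS hw hη
  have hi := (mMU n M H hH).2.2.2.2.1 ℝ
  have i1 := hi _ hχ.neg.exp.continuous
  have i2 := (hi _ (hs.sm.sub hs.sF).exp.continuous).const_mul
    (Real.exp (B + p) * Real.exp (-((p - 1) * T)))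
  have hA : MeasurableSet {x | T ≤ E x - a x} :=
    (isClosed_le continuous_const (hE.sub ha).continuous).measurableSet
  have i3 := i1.indicator hS.measurableSet
  rw [← integral_indicator hS.measurableSet] at hη
  rw [← integral_indicator hA]
  refine (integral_mono (i1.indicator hA) (i2.add i3) fun x => ?_).trans ?_
  · have c0 : 0 ≤ Real.exp (B + p) * Real.exp (-((p - 1) * T)) *
        Real.exp (w x - (ps M p E a T x + χ x)) := by positivity
    have c1 : 0 ≤ S.indicator (fun x => Real.exp (-χ x)) x :=
      indicator_nonneg (fun _ _ => (Real.exp_pos _).le) x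
    simp only [Pi.add_apply]
    by_cases hx : x ∈ {x | T ≤ E x - a x}
    · rw [indicator_of_mem hx]
      by_cases h : x ∈ S
      · rw [indicator_of_mem h]; linarith
      · have b := ((st_PSI n M p T E a hp.le hE ha).2.2.2.2.2.1 x).2.2
        rw [max_eq_left (by linarith [show T ≤ E x - a x from hx])] at b
        refine le_add_of_le_of_nonneg ?_ c1
        rw [← Real.exp_add, ← Real.exp_add]
        exact Real.exp_le_exp.2 (by linarith [hw x h, hB x])
    · rw [indicator_of_notMem hx]; linarith
  · simp only [Pi.add_apply]
    rw [integral_add i2 i3, integral_const_mul, hs.one, mul_one]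
    linarith

end Pool.Agent.Lib.ZE46
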