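import Pool.Agent.Lib.ZK.Blue

/-! Blueprint of the endgame of the project ze: from approximate convexity of the twisted
potentials to exponential integrability of the envelopes, for a class that is nef with respect
to a semipositive form. -/

open scoped Classical Topology ContDiff ComplexOrder Matrix
open Set MeasureTheory Filter

noncomputable section

namespace Pool.Agent.Lib.ZE46

open Pool.Agent.Lib.HS32 Pool.Agent.Lib.ZK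

section defs

variable {n : ℕ} (M : Mf n)

/-- The class of `θ` is nef with respect to the semipositive form `be`. -/
def NefW (be θ : M.Fam (Mat n)) : Prop :=
  ∀ e : ℝ, 0 < e → ∃ ψ, M.Sm ψ ∧ M.Le 0 (θ + e • be + M.hs ψ)

/-- An admissible weight. -/
structure Adm (H : M.Fam (Mat n)) (C q : ℝ) (ρ χ : M.X → ℝ) : Prop where
  sm : M.Sm χ
  mean : ∫ x, χ x ∂M.mu H ≤ C
  lq : ∫ x, Real.exp (-(q * χ x)) ∂M.mu H ≤ C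
  low : ∀ x, ρ x ≤ C * Real.exp (-χ x)

/-- A density with mild zeros. -/
structure Den (H : M.Fam (Mat n)) (ρ : M.X → ℝ) : Prop where
  cont : Continuous ρ
  nn : ∀ x, 0 ≤ ρ x
  int : ∃ γ K : ℝ, 0 < γ ∧ ∀ d ∈ Ioc (0 : ℝ) 1,
    ∫ x, Real.exp (-(γ * Real.log (ρ x + d))) ∂M.mu H ≤ K

/-- Convexity at three times, up to a constant, off a small set. -/
def Cvx (H be θ : M.Fam (Mat n)) (C q : ℝ) (ρ : M.X → ℝ) : Prop :=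
  ∀ p : ℝ, 0 < p → ∃ A : ℝ, 0 ≤ A ∧ ∀ C₀ B e t T η : ℝ, 0 < e → e ≤ 1 → 0 < t → t ≤ T → 0 < η →
    ∃ δ₀ : ℝ, 0 < δ₀ ∧ ∀ δ ∈ Ioc 0 δ₀, ∀ E a : M.X → ℝ, Dat M H (θ + e • be + δ • H) C₀ E a →
      (∀ x, |E x| ≤ B) → (∀ x, |a x| ≤ B) → ∃ χ, Adm M H C q ρ χ ∧
        ∀ (V : ℝ) (w : ℝ → M.X → ℝ),
          (∀ s, Sol M H ((p + 1) • (θ + e • be + δ • H)) V (fun x => ps M p E a s x + χ x) (w s)) →
          ∫ x in {x | (1 - t / T) * w 0 x + t / T * w T x + A < w t x},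
            Real.exp (-χ x) ∂M.mu H ≤ η

/-- The conclusion. -/
def Out (H θ : M.Fam (Mat n)) : Prop := ∃ a : ℝ → M.X → ℝ,
  (∀ e ∈ Ioc (0 : ℝ) 1, Env M (θ + e • H) (a e) e) ∧
  (∀ e ∈ Ioc (0 : ℝ) 1, ∀ e' ∈ Ioc 0 e, ∀ x, a e' x ≤ a e x + e) ∧
  ∀ m : ℝ, 0 < m → ∃ e₀ ∈ Ioc (0 : ℝ) 1, ∃ C : ℝ, ∀ e ∈ Ioc 0 e₀,
    ∫ x, Real.exp (-(m * a e x)) ∂M.mu H ≤ C

end defs

/-- Upper bounds, with a mean bound for the weight. -/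
def St_UPI : Prop := ∀ (n : ℕ) (M : Mf n) [M.Cpt] (H : M.Fam (Mat n)) (C₀ p C : ℝ), M.Kae H →
  0 < p → ∃ C₁ : ℝ, 0 ≤ C₁ ∧ ∀ (ϑ : M.Fam (Mat n)) (V t : ℝ) (E a χ w : M.X → ℝ), Dat M H ϑ C₀ E a →
    M.Sm χ → ∫ x, χ x ∂M.mu H ≤ C → 0 ≤ t →
    Sol M H ((p + 1) • ϑ) V (fun x => ps M p E a t x + χ x) w →
    (∀ x, w x ≤ p * t + C₁) ∧ ∀ m : ℝ, (∀ x, w x ≤ m) → ∀ x,
      w x - (p + 1) * E x ≤ m + (p + 1) ∧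
      w x - ps M p E a t x ≤ m + (p + 1) - p * t + p * min (E x - a x) t

/-- The lower bound at one time. -/
def St_LOWI : Prop := ∀ (n : ℕ) (M : Mf n) [M.Cpt] (H : M.Fam (Mat n)) (C₀ p C q : ℝ), 0 < n →
  M.Kae H → 0 < p → 1 < q → ∃ C₄ : ℝ, 0 ≤ C₄ ∧ ∀ t : ℝ, 0 ≤ t → ∃ η : ℝ, 0 < η ∧
    ∀ (ϑ : M.Fam (Mat n)) (V : ℝ) (E a χ w : M.X → ℝ), Dat M H ϑ C₀ E a → M.Sm χ →
      ∫ x, χ x ∂M.mu H ≤ C → ∫ x, Real.exp (-(q * χ x)) ∂M.mu H ≤ C →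
      (M.mu H).real {x | 1 < E x - a x} ≤ η →
      Sol M H ((p + 1) • ϑ) V (fun x => ps M p E a t x + χ x) w →
      ∀ x, p * t - C₄ ≤ w x - (p + 1) * E x

/-- Bounds that are uniform in all the data. -/
def St_CZBI : Prop := ∀ (n : ℕ) (M : Mf n) [M.Cpt] (H : M.Fam (Mat n)) (C₀ p C q T B₀ : ℝ), 0 < n →
  M.Kae H → 0 < p → 1 < q → ∃ B : ℝ, ∀ (ϑ : M.Fam (Mat n)) (V : ℝ) (E a χ w : M.X → ℝ),
    ∀ t ∈ Icc 0 T, Dat M H ϑ C₀ E a → (∀ x, |E x| ≤ B₀) → M.Sm χ → ∫ x, χ x ∂M.mu H ≤ C →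
      ∫ x, Real.exp (-(q * χ x)) ∂M.mu H ≤ C →
      Sol M H ((p + 1) • ϑ) V (fun x => ps M p E a t x + χ x) w → ∀ x, |w x| ≤ B

/-- The tail, off a small set. -/
def St_TAILI : Prop := ∀ (n : ℕ) (M : Mf n) [M.Cpt] (H α : M.Fam (Mat n)) (p V B T η : ℝ)
  (E a χ w : M.X → ℝ) (S : Set M.X), 0 < p → M.Met H → M.Sm E → M.Sm a → M.Sm χ →
  (∀ x, -B ≤ E x) → Sol M H α V (fun x => ps M p E a T x + χ x) w → IsOpen S →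
  (∀ x ∉ S, (p - 1) * T ≤ w x - (p + 1) * E x) → ∫ x in S, Real.exp (-χ x) ∂M.mu H ≤ η →
  ∫ x in {x | T ≤ E x - a x}, Real.exp (-χ x) ∂M.mu H ≤
    Real.exp (B + p) * Real.exp (-((p - 1) * T)) + η

/-- The family of envelopes with two parameters. -/
def St_FAM2 : Prop := ∀ (n : ℕ) (M : Mf n) [M.Cpt] (H be θ : M.Fam (Mat n)), 0 < n → M.Kae H →
  M.Clo θ → M.Clo be → M.Le 0 be → NefW M be θ → ∃ (C₀ : ℝ) (E : ℝ → ℝ → M.X → ℝ),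
    (∀ e ∈ Ioc (0 : ℝ) 1, ∀ e' ∈ Ioc 0 e, ∀ δ ∈ Ioc (0 : ℝ) 1,
      Dat M H (θ + e • be + δ • H) C₀ (E e δ) (E e' δ)) ∧
    (∀ e ∈ Ioc (0 : ℝ) 1, ∃ B : ℝ, ∀ δ ∈ Ioc (0 : ℝ) 1, ∀ x, |E e δ x| ≤ B) ∧
    ∀ η : ℝ, 0 < η → ∃ e ∈ Ioc (0 : ℝ) 1, ∃ δ₁ ∈ Ioc (0 : ℝ) 1, ∀ e' ∈ Ioc 0 e, ∀ δ ∈ Ioc 0 δ₁,
      (M.mu H).real {x | 1 < E e δ x - E e' δ x} ≤ η

/-- The family of envelopes with one parameter dominates it. -/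
def St_FAM1 : Prop := ∀ (n : ℕ) (M : Mf n) [M.Cpt] (H be θ : M.Fam (Mat n)), 0 < n → M.Kae H →
  M.Clo θ → M.Clo be → M.Le 0 be → NefW M be θ → ∃ a : ℝ → M.X → ℝ,
    (∀ e ∈ Ioc (0 : ℝ) 1, Env M (θ + e • H) (a e) e) ∧
    (∀ e ∈ Ioc (0 : ℝ) 1, ∀ e' ∈ Ioc 0 e, ∀ x, a e' x ≤ a e x + e) ∧
    ∀ e ∈ Ioc (0 : ℝ) 1, ∃ r : ℝ, 0 < r ∧ ∀ e' ∈ Ioc 0 r, ∀ δ ∈ Ioc 0 r, ∀ φ : M.X → ℝ,
      Env M (θ + e' • be + δ • H) φ 1 → ∀ x, φ x ≤ a e x + 1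

/-- From finitely many levels to the weighted exponential integral. -/
def St_LAYW : Prop := ∀ (X : Type) [MeasurableSpace X] (μ : Measure X) [IsFiniteMeasure μ]
  (ρ : X → ℝ) (R m A t : ℝ), Measurable ρ → (∀ x, 0 ≤ ρ x ∧ ρ x ≤ R) → 0 < m → 0 ≤ A →
  ∃ K : ℝ, ∀ (y : X → ℝ) (N : ℕ), Measurable y → (∀ x, |y x| ≤ N) →
    (∀ k : ℕ, k ≤ N → ∫ x in {x | t + k ≤ y x}, ρ x ∂μ ≤ A * Real.exp (-((m + 1) * (t + k)))) →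
    0 ≤ t → ∫ x, ρ x * Real.exp (m * y x) ∂μ ≤ K

/-- Removing the density. -/
def St_REM : Prop := ∀ (X : Type) [MeasurableSpace X] (μ : Measure X) [IsFiniteMeasure μ]
  (ρ a : X → ℝ) (R γ m K K' : ℝ), Measurable ρ → Measurable a → (∀ x, 0 ≤ ρ x ∧ ρ x ≤ R) →
  (∀ x, |a x| ≤ R) → 0 < γ → 0 < m →
  (∀ d ∈ Ioc (0 : ℝ) 1, ∫ x, Real.exp (-(γ * Real.log (ρ x + d))) ∂μ ≤ K) →
  ∫ x, ρ x * Real.exp (-(m * (1 + γ) / γ * a x)) ∂μ ≤ K' →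
  ∫ x, Real.exp (-(m * a x)) ∂μ ≤ K + K'

/-- One level. -/
def St_LEV : Prop := ∀ (n : ℕ) (M : Mf n) [M.Cpt] (H be θ : M.Fam (Mat n)) (C q C₀ p : ℝ)
  (ρ : M.X → ℝ), 0 < n → M.Kae H → M.Clo θ → M.Clo be → 1 < q → 1 < p → Continuous ρ →
  (∀ x, 0 ≤ ρ x) → Cvx M H be θ C q ρ → ∃ t η : ℝ, 0 < t ∧ 0 < η ∧
    ∀ B₁ B e T : ℝ, 0 < e → e ≤ 1 → t ≤ T → ∃ δ₀ : ℝ, 0 < δ₀ ∧ ∀ δ ∈ Ioc 0 δ₀,
      ∀ E a : M.X → ℝ, Dat M H (θ + e • be + δ • H) C₀ E a → (∀ x, -B₁ ≤ E x) →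
        (∀ x, |E x| ≤ B) → (∀ x, |a x| ≤ B) → (M.mu H).real {x | 1 < E x - a x} ≤ η →
        ∫ x in {x | T ≤ E x - a x}, ρ x ∂M.mu H ≤
          |C| * (Real.exp (B₁ + p) + 1) * Real.exp (-((p - 1) * T))

/-- The endgame. -/
def St_END : Prop := ∀ (n : ℕ) (M : Mf n) [M.Cpt] (H be θ : M.Fam (Mat n)) (C q : ℝ)
  (ρ : M.X → ℝ), 0 < n → M.Kae H → M.Clo θ → M.Clo be → M.Le 0 be → NefW M be θ → 1 < q →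
  Den M H ρ → Cvx M H be θ C q ρ → Out M H θ

end Pool.Agent.Lib.ZE46
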