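import Mathlib

/-! A three point inequality for functions on the plane that are periodic in the imaginary
direction and almost subharmonic. -/

open scoped Topology ContDiff Real
open Set MeasureTheory Filter Complex intervalIntegral

noncomputable section

namespace Pool.Agent.Lib.ZE46.Tent

theorem cont_par {F : ℂ → ℝ} (hF : Continuous F) (a b : ℝ) :
    Continuous fun x : ℝ => ∫ y in a..b, F (x + y * I) :=
  intervalIntegral.continuous_parametric_intervalIntegral_of_continuous'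
    (f := fun (x y : ℝ) => F (x + y * I)) (by unfold Function.uncurry; fun_prop) a b

theorem der_re {F : ℂ → ℝ} (hF : Differentiable ℝ F) (x y : ℝ) :
    HasDerivAt (fun x : ℝ => F (x + y * I)) (fderiv ℝ F (x + y * I) 1) x := by
  have h : HasDerivAt (fun x : ℝ => (x : ℂ) + y * I) 1 x := by
    simpa using (Complex.ofRealCLM.hasDerivAt (x := x)).add_const ((y : ℂ) * I)
  exact (hF _).hasFDerivAt.comp_hasDerivAt x h

theorem der_im {F : ℂ → ℝ} (hF : Differentiable ℝ F) (x y : ℝ) :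
    HasDerivAt (fun y : ℝ => F (x + y * I)) (fderiv ℝ F (x + y * I) I) y := by
  have h : HasDerivAt (fun y : ℝ => (x : ℂ) + y * I) I y := by
    simpa using ((Complex.ofRealCLM.hasDerivAt (x := y)).mul_const I).const_add (x : ℂ)
  exact (hF _).hasFDerivAt.comp_hasDerivAt y h

theorem der_par {F : ℂ → ℝ} (hF : ContDiff ℝ ∞ F) (a b x : ℝ) :
    HasDerivAt (fun x : ℝ => ∫ y in a..b, F (x + y * I))
      (∫ y in a..b, fderiv ℝ F (x + y * I) 1) x := by
  have hc : Continuous fun τ => fderiv ℝ F τ 1 :=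
    (hF.continuous_fderiv (by simp)).clm_apply continuous_const
  have hF0 := hF.continuous
  obtain ⟨B, hB⟩ := ((isCompact_closedBall x 1).prod (isCompact_uIcc (a := a) (b := b))).exists_bound_of_continuousOn
    (f := fun p : ℝ × ℝ => fderiv ℝ F (p.1 + p.2 * I) 1) (by fun_prop)
  refine (intervalIntegral.hasDerivAt_integral_of_dominated_loc_of_deriv_le (μ := volume)
    (F := fun (x y : ℝ) => F (x + y * I)) (F' := fun (x y : ℝ) => fderiv ℝ F (x + y * I) 1)
    (bound := fun _ => B) (Metric.ball_mem_nhds x one_pos)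
    (Eventually.of_forall fun x => (by fun_prop : Continuous _).aestronglyMeasurable)
    ((by fun_prop : Continuous _).intervalIntegrable _ _)
    (by fun_prop : Continuous _).aestronglyMeasurable
    (Eventually.of_forall fun y hy x' hx' =>
      hB (x', y) ⟨Metric.ball_subset_closedBall hx', uIoc_subset_uIcc hy⟩)
    intervalIntegrable_const
    (Eventually.of_forall fun y _ x' _ => der_re (hF.differentiable (by simp)) x' y)).2

theorem cd_dir {F : ℂ → ℝ} (hF : ContDiff ℝ ∞ F) (v : ℂ) : ContDiff ℝ ∞ fun τ => fderiv ℝ F τ v :=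
  (hF.fderiv_right (m := ∞) (by simp)).clm_apply contDiff_const

end Tent

open Tent in
theorem tent {u j : ℂ → ℝ} {c s₁ s₂ a₀ a₁ a₂ : ℝ} (hu : ContDiff ℝ ∞ u)
    (hp : ∀ τ, u (τ + 2 * π * I) = u τ) (hj : Continuous j) (hj0 : ∀ τ, 0 ≤ j τ) (hc : 0 ≤ c)
    (hl : ∀ τ, -j τ - c ≤ fderiv ℝ (fun s => fderiv ℝ u s 1) τ 1 +
      fderiv ℝ (fun s => fderiv ℝ u s I) τ I)
    (h1 : 0 < s₁) (h12 : s₁ ≤ s₂) (h2 : s₂ ≤ 2 * π) (b₀ : ∀ y : ℝ, u (y * I) ≤ a₀)
    (b₁ : ∀ y : ℝ, a₁ ≤ u (s₁ + y * I)) (b₂ : ∀ y : ℝ, u (s₂ + y * I) ≤ a₂) :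
    a₁ ≤ (1 - s₁ / s₂) * a₀ + s₁ / s₂ * a₂ + c * s₂ ^ 2 +
      s₂ / (2 * π) * ∫ x in (0 : ℝ)..2 * π, ∫ y in (0 : ℝ)..2 * π, j (x + y * I) := by
  have hπ := Real.two_pi_pos
  have hu0 := hu.continuous
  have u1 := cd_dir hu 1
  have u11 := (cd_dir u1 1).continuous
  have uI := cd_dir hu I
  have uII := (cd_dir uI I).continuous
  have pI : ∀ τ, fderiv ℝ u (τ + 2 * π * I) I = fderiv ℝ u τ I := fun τ => by
    rw [← fderiv_comp_add_right, funext hp]
  set J : ℝ → ℝ := fun x => ∫ y in (0 : ℝ)..2 * π, j (x + y * I) with hJ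
  have cJ : Continuous J := cont_par hj _ _
  have J0 : ∀ x, 0 ≤ J x := fun x => integral_nonneg hπ.le fun _ _ => hj0 _
  set J₁ : ℝ → ℝ := fun x => ∫ s in (0 : ℝ)..x, J s with hJ₁
  have dJ₁ : ∀ x, HasDerivAt J₁ (J x) x := fun x => (cJ.integral_hasStrictDerivAt 0 x).hasDerivAt
  have cJ₁ : Continuous J₁ := continuous_iff_continuousAt.2 fun x => (dJ₁ x).continuousAt
  have mJ₁ : Monotone J₁ := monotone_of_deriv_nonneg (fun x => (dJ₁ x).differentiableAt)
    fun x => (dJ₁ x).deriv ▸ J0 x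
  have J₁0 : J₁ 0 = 0 := integral_same
  set J₂ : ℝ → ℝ := fun x => ∫ s in (0 : ℝ)..x, J₁ s with hJ₂
  have dJ₂ : ∀ x, HasDerivAt J₂ (J₁ x) x := fun x => (cJ₁.integral_hasStrictDerivAt 0 x).hasDerivAt
  set U : ℝ → ℝ := fun x => ∫ y in (0 : ℝ)..2 * π, u (x + y * I) with hU
  set A : ℝ → ℝ := fun x => ∫ y in (0 : ℝ)..2 * π, fderiv ℝ u (x + y * I) 1 with hA
  have d1 : ∀ x, HasDerivAt (fun x => U x + J₂ x + π * c * x ^ 2) (A x + J₁ x + π * c * (2 * x)) x :=
    fun x => ((der_par hu _ _ x).add (dJ₂ x)).add (by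
      simpa using (hasDerivAt_pow 2 x).const_mul (π * c))
  have d2 : ∀ x : ℝ, HasDerivAt (fun x => A x + J₁ x + π * c * (2 * x))
      ((∫ y in (0 : ℝ)..2 * π, fderiv ℝ (fun s => fderiv ℝ u s 1) (x + y * I) 1) + J x +
        π * c * 2) x := fun x => ((der_par u1 _ _ x).add (dJ₁ x)).add (by
      simpa using ((hasDerivAt_id x).const_mul 2).const_mul (π * c))
  have hcv : ConvexOn ℝ univ fun x => U x + J₂ x + π * c * x ^ 2 := by
    refine Monotone.convexOn_univ_of_deriv (fun x => (d1 x).differentiableAt) ?_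
    rw [show deriv (fun x => U x + J₂ x + π * c * x ^ 2) = _ from funext fun x => (d1 x).deriv]
    refine monotone_of_deriv_nonneg (fun x => (d2 x).differentiableAt) fun x => ?_
    rw [(d2 x).deriv]
    have e0 : ∫ y in (0 : ℝ)..2 * π, fderiv ℝ (fun s => fderiv ℝ u s I) (x + y * I) I = 0 := by
      rw [integral_eq_sub_of_hasDerivAt (fun y _ => der_im (uI.differentiable (by simp)) x y)
        ((by fun_prop : Continuous _).intervalIntegrable _ _)]
      have := pI x
      push_cast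
      simp only [zero_mul, add_zero]
      linarith
    have e1 : ∫ y in (0 : ℝ)..2 * π, (-j (x + y * I) - c) ≤
        ∫ y in (0 : ℝ)..2 * π, (fderiv ℝ (fun s => fderiv ℝ u s 1) (x + y * I) 1 +
          fderiv ℝ (fun s => fderiv ℝ u s I) (x + y * I) I) :=
      integral_mono_on hπ.le ((by fun_prop : Continuous _).intervalIntegrable _ _)
        ((by fun_prop : Continuous _).intervalIntegrable _ _) fun y _ => hl _
    rw [integral_add ((by fun_prop : Continuous _).intervalIntegrable _ _)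
      ((by fun_prop : Continuous _).intervalIntegrable _ _), e0,
      integral_sub ((by fun_prop : Continuous _).intervalIntegrable _ _) intervalIntegrable_const,
      intervalIntegral.integral_neg, intervalIntegral.integral_const, smul_eq_mul] at e1
    simp only [hJ]
    linarith
  have hs : 0 < s₂ := h1.trans_le h12
  have r0 : 0 ≤ s₁ / s₂ := (div_pos h1 hs).le
  have r1 : s₁ / s₂ ≤ 1 := (div_le_one hs).2 h12
  have k := hcv.2 (mem_univ 0) (mem_univ s₂) (sub_nonneg.2 r1) r0 (by ring)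
  simp only [smul_eq_mul, mul_zero, zero_add, div_mul_cancel₀ _ hs.ne'] at k
  have iu : ∀ x : ℝ, IntervalIntegrable (fun y : ℝ => u (x + y * I)) volume 0 (2 * π) := fun x =>
    (by fun_prop : Continuous _).intervalIntegrable _ _
  have U0 : U 0 ≤ 2 * π * a₀ := by
    have := integral_mono_on hπ.le (iu 0) (intervalIntegrable_const (c := a₀))
      fun y _ => by simpa using b₀ y
    simpa [hU] using this
  have U1 : 2 * π * a₁ ≤ U s₁ := by
    have := integral_mono_on hπ.le (intervalIntegrable_const (c := a₁)) (iu s₁) fun y _ => b₁ y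
    simpa using this
  have U2 : U s₂ ≤ 2 * π * a₂ := by
    have := integral_mono_on hπ.le (iu s₂) (intervalIntegrable_const (c := a₂)) fun y _ => b₂ y
    simpa using this
  have j0 : J₂ 0 = 0 := integral_same
  have j1 : 0 ≤ J₂ s₁ := integral_nonneg h1.le fun s hs => J₁0 ▸ mJ₁ hs.1
  have j2 : J₂ s₂ ≤ s₂ * J₁ (2 * π) := by
    have := integral_mono_on hs.le (cJ₁.intervalIntegrable (μ := volume) 0 s₂)
      (intervalIntegrable_const (c := J₁ (2 * π))) fun s h => mJ₁ (h.2.trans h2)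
    simpa using this
  have j3 : 0 ≤ J₁ (2 * π) := J₁0 ▸ mJ₁ hπ.le
  show a₁ ≤ _ + s₂ / (2 * π) * J₁ (2 * π)
  have t0 := mul_le_mul_of_nonneg_left U0 (sub_nonneg.2 r1)
  have t2 := mul_le_mul_of_nonneg_left U2 r0
  have t3 : s₁ / s₂ * J₂ s₂ ≤ s₂ * J₁ (2 * π) :=
    (mul_le_mul_of_nonneg_left j2 r0).trans (mul_le_of_le_one_left (by positivity) r1)
  have t4 : s₁ / s₂ * (π * c * s₂ ^ 2) ≤ 2 * π * (c * s₂ ^ 2) :=
    (mul_le_of_le_one_left (by positivity) r1).trans (by nlinarith [mul_nonneg hc (sq_nonneg s₂), Real.pi_pos])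
  have t5 : 0 ≤ π * c * s₁ ^ 2 := by positivity
  refine le_of_mul_le_mul_left ?_ hπ
  rw [j0] at k
  rw [mul_add, ← mul_assoc _ (s₂ / _), mul_div_cancel₀ _ hπ.ne']
  nlinarith

end Pool.Agent.Lib.ZE46
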